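import Mathlib
import Pool.Agent.H71.WildH

set_option autoImplicit false

/-!
# The classification of the maximal SAAMs and of the maximal SASMs is a wild problem

Let `Φ` be a field of characteristic different from two. If `-1` is not a sum of squares in `Φ` then the only
SAAM and the only SASM of `M_n(Φ)` is `0`. We prove that for **all other fields** both classification problems
contain the classification of the pairs of `N × N` matrices up to simultaneous similarity, for every `N`, in
`M_n(Φ)` for all large `n`: there are an explicit number `d` and matrices `C_a + L_a(P, Q)`, `a = 1, …, d`, which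
depend affinely on the pair `(P, Q)`, such that for all pairs

* the matrices `C_a + L_a(P, Q)` are a basis of a maximal SAAM (respectively SASM) `V(P, Q)`;
* `V(P, Q)` and `V(P', Q')` are equivalent (conjugate under the orthogonal group) if and only if there is an
  invertible `h` with `P' = h P h⁻¹` and `Q' = h Q h⁻¹`.

The only condition is that `Φ ^ n` has a totally isotropic subspace (for the form `∑ y_i ^ 2`) of dimension at
least `7 N + 90`; if `-1` is a sum of `s` squares this is the case if `n ≥ (s + 1) (7 N + 90)`.

In the language of representation theory the two matrix problems of the question are wild; a list of the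
equivalence classes (for all `n`, over a given field with `-1` a sum of squares) would contain a list of the pairs
of matrices up to simultaneous similarity, and so of the modules of finite dimension over all finitely generated
algebras over `Φ`.

## The proof

Let `W'` be a totally isotropic subspace of a nondegenerate quadratic space `M`, and let `G_1, …, G_t` be
subspaces of `W'` of dimension at least two. Suppose that
`M = (W' ⊕ W'*) ⟂ (G_1 ⊕ G_1*) ⟂ … ⟂ (G_t ⊕ G_t*) ⟂ D'` with hyperbolic spaces `W' ⊕ W'*`, `G_i ⊕ G_i*`, and `D'`
anisotropic. Let `s_i` be the (anti)symmetric operator which maps `W'*` to `G_i*` by restriction, and `G_i` to `W'`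
by inclusion (up to the sign), and zero on the other summands. Let `t_i(τ)`, `τ` an alternating form on
`G_i*`, be the operator which maps `W'*` to `G_i* → G_i` (restriction and `τ`), and `G_i*` to `G_i ⊆ W'`. Then the space
`V` which is spanned by the (anti)symmetric operators `W'* → W'`, the `s_i` and the `t_i(τ)` is a maximal SAAM
(SASM): if `y` anticommutes with `V`, then it kills `W'`; the bilinear identities `(x u) · (y v) + (x v) · (y u) = 0` for
`x = s_i` and `x = t_i(τ)` show that the components of `y v` in `G_i*` and `G_i` are those of a combination of `s_i` and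
`t_i(τ)`, and the component in `D'` is zero as `y ^ 2 = 0` (`V_max`). The subspaces `W'` and `G_i` can be recovered
from `V`: `W'` is spanned by the images of the elements which annihilate `V`; an element of the part
`∑ t_i(τ_i)` has at most `t` linearly independent products with the elements of `V` and `s_i` has more if
`dim G_i ≥ t + 2`; and `G_i` is the image of the orthogonal complement of `W'` under `s_i` (`star`, `A_eq`). So the
classification of all systems of incomparable subspaces `G_i ⊆ W'` of different large dimensions is contained in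
the classification of maximal spaces. For a pair `(P, Q)` we take five subspaces: those of `Z ⊕ Z`, `Z = Φ ^ N`, given
by the two axes, the diagonal, and the graphs of `P` and `Q`, enlarged by independent summands of dimension
`7, …, 11`.
-/

namespace Pool.Agent.Results.MP_7a2f31_al.Wild

open Matrix

variable {Φ : Type*} [Field Φ] {n : ℕ}

/-- `V` is a linear space of matrices whose elements all satisfy `x ^ 2 = 0` and `xᵗ = ε x`.
For `ε = -1` this is a SAAM, for `ε = 1` a SASM. -/
def IsSpace (ε : Φ) (V : Submodule Φ (Matrix (Fin n) (Fin n) Φ)) : Prop :=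
  ∀ x ∈ V, x * x = 0 ∧ xᵀ = ε • x

/-- A maximal SAAM (`ε = -1`), a maximal SASM (`ε = 1`): not properly contained in another one. -/
def IsMaximal (ε : Φ) (V : Submodule Φ (Matrix (Fin n) (Fin n) Φ)) : Prop :=
  IsSpace ε V ∧ ∀ V', IsSpace ε V' → V ≤ V' → V' = V

/-- Equivalence: `W = q V qᵗ` for some orthogonal `q`. -/
def Equivalent (V W : Submodule Φ (Matrix (Fin n) (Fin n) Φ)) : Prop :=
  ∃ q : Matrix (Fin n) (Fin n) Φ, q * qᵀ = 1 ∧ ∀ x, x ∈ W ↔ ∃ y ∈ V, x = q * y * qᵀ

/-- `T` is totally isotropic for the form `∑ i, y i ^ 2` on `Φ ^ n`. -/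
def TotallyIsotropic (T : Submodule Φ (Fin n → Φ)) : Prop := ∀ u ∈ T, ∀ v ∈ T, u ⬝ᵥ v = 0

/-- The classification problems of maximal SAAMs (`ε = -1`) and of maximal SASMs (`ε = 1`) are wild
over every field of characteristic not two in which `-1` is a sum of squares, and trivial over all
other fields. -/
theorem result (Φ : Type*) [Field Φ] (h2 : (2 : Φ) ≠ 0) (ε : Φ) (hε : ε = -1 ∨ ε = 1) :
    -- (1) if `-1` is not a sum of squares, `0` is the only (maximal) space
    ((¬ ∃ (s : ℕ) (a : Fin s → Φ), ∑ i, a i ^ 2 = -1) →
      ∀ (n : ℕ) (V : Submodule Φ (Matrix (Fin n) (Fin n) Φ)), IsMaximal ε V ↔ V = ⊥) ∧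
    -- (2) if `Φ ^ n` has a totally isotropic subspace of dimension at least `7 N + 90`, then there
    -- are maximal spaces `V(P, Q)` in `M_n(Φ)` for all pairs `(P, Q)` of `N × N` matrices, with
    -- bases depending affinely on `(P, Q)`, which are equivalent if and only if the pairs are
    -- simultaneously similar
    (∀ (N n : ℕ) (T : Submodule Φ (Fin n → Φ)), TotallyIsotropic T →
      7 * N + 90 ≤ Module.finrank Φ T →
      ∃ (d : ℕ) (C : Fin d → Matrix (Fin n) (Fin n) Φ)
        (L : Fin d → (Matrix (Fin N) (Fin N) Φ × Matrix (Fin N) (Fin N) Φ) →ₗ[Φ]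
          Matrix (Fin n) (Fin n) Φ),
        (∀ P Q, LinearIndependent Φ fun a => C a + L a (P, Q)) ∧
        (∀ P Q, IsMaximal ε (Submodule.span Φ (Set.range fun a => C a + L a (P, Q)))) ∧
        ∀ P Q P' Q', Equivalent (Submodule.span Φ (Set.range fun a => C a + L a (P, Q)))
          (Submodule.span Φ (Set.range fun a => C a + L a (P', Q'))) ↔
          ∃ h : (Matrix (Fin N) (Fin N) Φ)ˣ,
            h.val * P * h⁻¹.val = P' ∧ h.val * Q * h⁻¹.val = Q') ∧
    -- (3) if `-1` is a sum of `s` squares, the hypothesis of (2) holds for all large `n`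
    (∀ (s : ℕ) (a : Fin s → Φ), ∑ i, a i ^ 2 = -1 → ∀ m n : ℕ, (s + 1) * m ≤ n →
      ∃ T : Submodule Φ (Fin n → Φ), TotallyIsotropic T ∧ Module.finrank Φ T = m) := by
  have hεε : ε * ε = 1 := by rcases hε with rfl | rfl <;> simp
  refine ⟨fun h n V => ⟨fun hV => Pool.Agent.H71.Wild.real_case h hV.1, ?_⟩, ?_, ?_⟩
  · rintro rfl
    refine ⟨fun x hx => ?_, fun V' hV' _ => Pool.Agent.H71.Wild.real_case h hV'⟩
    rw [(Submodule.mem_bot Φ).1 hx]
    simp
  · intro N n T hT hd
    exact Pool.Agent.H71.Wild.wild h2 hεε N hT hd
  · intro s a ha m n hmn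
    exact Pool.Agent.H71.Wild.exists_totIso a ha hmn

end Pool.Agent.Results.MP_7a2f31_al.Wild
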